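import Pool.Agent.H7.HD.Targets9
import Pool.Agent.H7.HD.P3
import Pool.Agent.H7.HD.Clo
import Pool.Agent.H7.HD.Pr
import Pool.Agent.H33.HD.VD
import Pool.Agent.H3.HD.VA

/-!
# Module GO: there is no least upper bound strictly below `f` (MP_e37c09_lc)
-/

open Ordinal Cardinal Order Set
open scoped ZFSet
open _root_.HD

universe u

namespace Pool.Agent.H49.HD9.GO

theorem X (hSH : T_SH.{u}) (hAB : T_AB.{u}) (hPH : T_PH.{u}) (hIX : T_IX.{u}) (hFD : T_FD.{u})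
    (hPK : T_PK.{u}) : T_GO.{u} := by
  intro en D G K c f h W hEN hBG hK hGK hat hW hfp hhf hLw hLU hLUW hpos
  have hVA : T_VA.{u} := Pool.Agent.H3.HD.VA.X
  have hVD : T_VD.{u} := Pool.Agent.H33.HD.VD.vd
  obtain ⟨hEA1, -, hEA3, -⟩ := t_EA en hEN
  obtain ⟨hix1, hix2, hix3, hix4, hix5, hix6⟩ := hIX en hEN
  obtain ⟨hfd1, hfd2⟩ := hFD en hEN
  obtain ⟨t, ht1, ht2, ht3⟩ := t_PR.{u}
  have htp : Prf t := ⟨ht1, ht2, ht3⟩
  have hts : ∀ i j k : ℕ, DO fun w : ℕ → Ordinal.{u} => w k = t (w i) (w j) := fun i j k =>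
    DO.s3 (X := fun a b x => x = t a b) ht1 i j k
  have hafs : ∀ i j k : ℕ, DO fun w : ℕ → Ordinal.{u} => w k = af en (w j) (w i) := fun i j k =>
    DO.s3 (X := fun a b x => x = af en b a) hfd1 i j k
  have hafc : ∀ (k : Ordinal.{u}) (i j : ℕ),
      DO fun w : ℕ → Ordinal.{u} => w j = af en k (w i) := by
    intro k i j
    refine (DO.ex (R := fun g w => g = k ∧ w j = af en g (w i)) ((DO.eqc 0 k).and
      (hafs (i + 1) 0 (j + 1)))).congr fun w => ?_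
    constructor
    · intro h; exact ⟨k, rfl, h⟩
    · rintro ⟨x, rfl, h⟩; exact h
  have hGK' : G < K := (lt_succ G).trans hGK
  have hG0 : ℵ₀ ≤ G := hBG.greg.aleph0_le
  have hK0 : ℵ₀ < K := lt_of_le_of_lt hG0 hGK'
  have hSG : (succ G).IsRegular := Cardinal.isRegular_succ hG0
  have hDG : D < succ G := lt_of_le_of_lt hBG.dg (lt_succ G)
  have hDK : D < K := hDG.trans hGK
  have hcof : K.ord.cof = K := hK.cof_ord
  have hPK' := hPK D G K hBG hK hGK'
  have hDS : DS (E en c) := ((hEN.od _).2 ⟨c, rfl⟩).ds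
  -- the values of `h`
  have hpn : ∀ a < K.ord, pn en a < K.ord := fun a ha => hix6 K a hK (hPK' a ha)
  have hhK : ∀ a < K.ord, h a < K.ord := fun a ha =>
    lt_of_le_of_lt ((hhf a).trans (hfp a ha)) (hpn a ha)
  have hPO := hPH en K (E en c) t h hEN hK hK0 hDS htp hhK hLU
  -- no long definable sequences of disjoint classes
  have hno : ∀ s : Ordinal.{u} → Ordinal.{u} → Prop, DR s → (∀ b i i', s b i → s b i' → i = i') →
      ¬ ∀ i < (succ G).ord, Phh K.ord (E en c) t h {b | s b i} := by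
    intro s hs hs1 hs2
    have h1 : DO fun w : ℕ → Ordinal.{u} => s (t (w 0) (w 1)) (w 2) := by
      refine (DO.ex (R := fun x w => x = t (w 0) (w 1) ∧ s x (w 2)) ((hts 1 2 0).and
        (DO.s2 hs 0 3))).congr fun w => ?_
      constructor
      · intro h; exact ⟨_, rfl, h⟩
      · rintro ⟨x, rfl, h⟩; exact h
    have h2 := hSH en D (succ G) K.ord W (E en c) h (fun a b i => s (t a b) i) hEN hBG.dreg
      hBG.dunc hSG hDG (by rw [hcof]; exact hDK.le) hW hDS h1 (fun a b i i' => hs1 _ i i') hLUW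
      (fun i hi => hs2 i hi) G.ord
      (by
        have : (0 : Ordinal.{u}) < (ℵ₀ : Cardinal.{u}).ord := by
          rw [Cardinal.ord_aleph0]; exact Ordinal.omega0_pos
        exact this.trans_le (Cardinal.ord_le_ord.2 hG0))
      (Cardinal.ord_lt_ord.2 (lt_succ G))
    refine Pool.Agent.H7.HD.P3.p3 h2 ?_
    refine hBG.ns ℵ₀ Cardinal.isRegular_aleph0 hBG.dunc (succ G).ord ?_
    rw [hSG.cof_ord]
    exact lt_succ G
  -- the positive set
  let XX : Set Ordinal.{u} := {x | ∃ a b, x = t a b ∧ a < K.ord ∧ b < af en f a}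
  have hXD : DS XX := by
    refine DO.ex (R := fun a w => ∃ b, w 0 = t a b ∧ a < K.ord ∧ b < af en f a) ?_
    refine DO.ex (R := fun b w => w 1 = t (w 0) b ∧ w 0 < K.ord ∧ b < af en f (w 0)) ?_
    refine (hts 1 0 2).and ((DO.ltc 1 K.ord).and ?_)
    refine (DO.ex (R := fun x w => x = af en f (w 1) ∧ w 0 < x) ((hafc f 2 0).and
      (DO.lt 1 0))).congr fun w => ?_
    constructor
    · intro h; exact ⟨_, rfl, h⟩
    · rintro ⟨x, rfl, h⟩; exact h
  have hXP : Phh K.ord (E en c) t h XX := by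
    refine hpos.mono fun a ha hx _ => ?_
    exact ⟨hx.1, a, h a, rfl, ha, hx.2⟩
  obtain ⟨x0, hx0X, hx0P, hx0U⟩ := hAB en hEN (succ G).ord K.ord _ hPO (by rw [hcof]; exact hK0)
    (by rw [hcof, Cardinal.card_ord]; exact hGK)
    (fun τ hτ => by
      obtain ⟨β, hβ, h1⟩ := hPK' τ (hτ.trans (Cardinal.ord_lt_ord.2 hGK))
      exact ⟨β, by rw [hcof]; exact Cardinal.lt_ord.1 hβ, h1⟩) hno XX hXD hXP
  have hx0D : DS (E en x0) := ((hEN.od _).2 ⟨x0, rfl⟩).ds
  -- the sets `Y z`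
  let Y : Ordinal.{u} → Set Ordinal.{u} := fun z => {x | ∃ a b, x = t a b ∧ PX en a b z}
  have hYD : DO fun w : ℕ → Ordinal.{u} => w 0 ∈ Y (w 1) := by
    refine DO.ex (R := fun a w => ∃ b, w 0 = t a b ∧ PX en a b (w 1)) ?_
    refine DO.ex (R := fun b w => w 1 = t (w 0) b ∧ PX en (w 0) b (w 2)) ?_
    exact (hts 1 0 2).and (DO.s3 (X := fun a b x => PX en a b x) hix1 1 0 3)
  have hYt : ∀ a b z, t a b ∈ Y z ↔ PX en a b z := by
    intro a b z
    constructor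
    · rintro ⟨a', b', h1, h2⟩
      obtain ⟨rfl, rfl⟩ := ht2 _ _ _ _ h1
      exact h2
    · intro h1
      exact ⟨a, b, rfl, h1⟩
  let A : Set Ordinal.{u} := {z | z < K.ord ∧ Phh K.ord (E en c) t h {x | x ∈ E en x0 ∧ x ∈ Y z}}
  have hAD : DS A := by
    refine (DO.ltc 0 K.ord).and ?_
    refine hPO.dfn (fun a w => a ∈ E en x0 ∧ a ∈ Y (w 0)) ?_
    exact (hx0D.s1 0).and hYD
  -- for every `z` the class is decided
  have hdec : ∀ z < K.ord, ¬ Pos (ℵ₀ : Cardinal.{u}).ord K.ord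
      {a | (a ∈ E en c ∧ t a (h a) ∈ E en x0) ∧ ¬ (PX en a (h a) z ↔ z ∈ A)} := by
    intro z hz hz1
    have hYz : DS (Y z) :=
      DO.sect1 (R := fun a b => b ∈ Y a) (DO.s2 (X := fun x a => x ∈ Y a) hYD 1 0) z
    obtain ⟨y, hy⟩ := hEA3 (Y z) hYz K.ord
    have h1 := hx0U y
    by_cases hzA : z ∈ A
    · refine h1 ⟨hPO.mono _ _ hzA.2 fun b hb hbx => ?_, ?_⟩
      · exact ⟨hbx.1, by rw [hy]; exact ⟨hbx.2, hb⟩⟩
      · refine Pos.mono hz1 fun a ha hx _ => ?_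
        obtain ⟨⟨h2, h3⟩, h4⟩ := hx
        refine ⟨h2, h3, ?_⟩
        rw [hy]
        rintro ⟨h5, -⟩
        exact h4 ⟨fun _ => hzA, fun _ => (hYt _ _ _).1 h5⟩
    · apply hzA
      refine ⟨hz, ?_⟩
      refine Pos.mono hz1 fun a ha hx _ => ?_
      obtain ⟨⟨h2, h3⟩, h4⟩ := hx
      refine ⟨h2, h3, (hYt _ _ _).2 ?_⟩
      by_contra h5
      exact h4 ⟨fun h6 => absurd h6 h5, fun h6 => absurd h6 hzA⟩
  -- diagonal intersection
  have hdiag : ¬ Pos (ℵ₀ : Cardinal.{u}).ord K.ord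
      {a | (a ∈ E en c ∧ t a (h a) ∈ E en x0) ∧ ∃ z < a, ¬ (PX en a (h a) z ↔ z ∈ A)} := by
    intro h1
    classical
    let g : Ordinal.{u} → Ordinal.{u} := fun a =>
      if hz : ∃ z < a, ¬ (PX en a (h a) z ↔ z ∈ A) then Classical.choose hz else 0
    have hg : ∀ a, (∃ z < a, ¬ (PX en a (h a) z ↔ z ∈ A)) →
        g a < a ∧ ¬ (PX en a (h a) (g a) ↔ g a ∈ A) := by
      intro a ha
      have : g a = Classical.choose ha := dif_pos ha
      rw [this]
      exact Classical.choose_spec ha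
    obtain ⟨z, hz, h2⟩ := hVD _ K hK hK0 _ g h1 (fun b hb _ _ => (hg b hb.2).1)
    refine hdec z hz (h2.mono fun a ha hx _ => ?_)
    obtain ⟨⟨h3, h4⟩, h5⟩ := hx
    refine ⟨h3, ?_⟩
    have := (hg a h4).2
    rwa [h5] at this
  have hT : Pos (ℵ₀ : Cardinal.{u}).ord K.ord
      {a | (a ∈ E en c ∧ t a (h a) ∈ E en x0) ∧ ∀ z < a, (PX en a (h a) z ↔ z ∈ A)} := by
    refine (pos_diff hVA (by rw [hcof]; exact hK0) hx0P hdiag).mono fun a ha hx _ => ?_
    obtain ⟨h1, h2⟩ := hx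
    refine ⟨h1, fun z hz => ?_⟩
    by_contra h3
    exact h2 ⟨h1, z, hz, h3⟩
  -- the code of the function
  obtain ⟨g, hg⟩ := hfd2 (fun a => ix en a (os a A)) (hix3 A hAD) K.ord
  have hval : ∀ a < K.ord, (a ∈ E en c ∧ t a (h a) ∈ E en x0) →
      (∀ z < a, (PX en a (h a) z ↔ z ∈ A)) → h a = af en g a ∧ af en g a < af en f a := by
    intro a ha h1 h2
    have h3 : h a < af en f a := by
      obtain ⟨a', b', h4, -, h5⟩ := hx0X h1.2
      obtain ⟨rfl, rfl⟩ := ht2 _ _ _ _ h4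
      exact h5
    obtain ⟨y, hy1, hy2, hy3⟩ := hix5 a (h a) (lt_of_lt_of_le h3 (hfp a ha))
    have h6 : y = os a A := by
      ext z
      rw [mem_os]
      constructor
      · intro hz
        obtain ⟨ζ, hζ, rfl⟩ := mem_toZFSet_iff.1 (hy2 hz)
        refine ⟨ζ, hζ, ?_, rfl⟩
        have h7 := (hix4 a y hy1 hy2).2 ζ hζ
        rw [← hy3] at h7
        exact (h2 ζ hζ).1 (h7.2 hz)
      · rintro ⟨ζ, hζ, hA, rfl⟩
        have h7 := (hix4 a y hy1 hy2).2 ζ hζ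
        rw [← hy3] at h7
        exact h7.1 ((h2 ζ hζ).2 hA)
    have h8 : h a = af en g a := by
      rw [hg a ha, ← h6]
      exact hy3
    exact ⟨h8, h8 ▸ h3⟩
  -- comparison
  have hcmpD : DS {a | af en g a < af en f a} := by
    refine (DO.ex (R := fun x w => ∃ y, x = af en g (w 0) ∧ y = af en f (w 0) ∧ x < y)
      (DO.ex (R := fun y w => w 0 = af en g (w 1) ∧ y = af en f (w 1) ∧ w 0 < y) ?_)).congr
      fun w => ?_
    · exact (hafc g 2 1).and ((hafc f 2 0).and (DO.lt 1 0))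
    · constructor
      · intro h; exact ⟨_, _, rfl, rfl, h⟩
      · rintro ⟨x, y, rfl, rfl, h⟩; exact h
  obtain ⟨x, hx⟩ := hEA3 _ hcmpD K.ord
  have hlw : Lw (ℵ₀ : Cardinal.{u}).ord K.ord (E en c) (af en g) (af en f) := by
    intro h1
    refine hat.ult x ⟨hT.mono fun a ha h2 _ => ⟨h2.1.1, ?_⟩, h1.mono fun a ha h2 _ => ⟨h2.1, ?_⟩⟩
    · rw [hx]
      exact ⟨(hval a ha h2.1 h2.2).2, ha⟩
    · rw [hx]
      rintro ⟨h3, -⟩
      exact absurd h3 (not_lt.2 h2.2)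
  refine hLw g hlw (hT.mono fun a ha h2 _ => ⟨h2.1.1, ?_⟩)
  exact (hval a ha h2.1 h2.2).1.le

end Pool.Agent.H49.HD9.GO
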